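import Mathlib
import Pool.Agent.Y555.DSDefs
import Pool.Agent.Y555.DSReset

/-!
# Reset thresholds of synchronizing automata with transition monoid in DS

`C_DS(n) = n - 1` for every `n ≥ 1`.

Idea of the proof. Let `M` be the transition monoid, acting on the functions `f : Q → ℚ` by
`f ↦ f ∘ t`. Take a chain of invariant subspaces from the constant functions to all functions
with irreducible factors; it has at most `n - 1` factors. For an irreducible factor the elements
of `M` that act as zero form an ideal, and since `M` lies in `DS`, the complement of this ideal
is closed under products: if `x, y` do not act as zero, then they divide an element `z` of the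
lowest class of elements that do not act as zero, and products inside this class, which is
regular, stay in it. A reset word acts as zero on every factor, so some letter does. The product
of these letters, at most `n - 1` of them, maps every function to a constant one.
-/

set_option autoImplicit false

namespace Pool.Agent.Results.MP_305c6f_lc.ExactValue

open Pool.Agent.Y555.DS

/-- For every `n ≥ 1`, the number `n - 1` is the greatest of the lengths of shortest reset words
of the synchronizing automata with `n` states, over any finite nonempty alphabet, whose
transition monoid lies in `DS`. -/
theorem result (n : ℕ) (hn : 1 ≤ n) :
    IsGreatest {l : ℕ | ∃ (Q A : Type) (_ : Fintype Q) (_ : Finite A) (_ : Nonempty A)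
        (δ : Q → A → Q), Fintype.card Q = n ∧ InDS (transMonoid δ) ∧
        IsLeast {k | ∃ w : List A, IsReset δ w ∧ w.length = k} l} (n - 1) :=
  exact_value n hn

end Pool.Agent.Results.MP_305c6f_lc.ExactValue
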